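import Pool.Agent.H74.MRW.Def

set_option autoImplicit false

namespace Pool.MRW

theorem t_ttm : TTMStmt := by
  intro V V' k φ A' A hφ hA h
  obtain ⟨f, hf, L, p, hp, hd⟩ := h
  refine ⟨fun i => φ (f i), fun i j hij => hf (hφ hij), L, fun i j t => φ (p i j t), ?_, ?_⟩
  · intro i j hij
    obtain ⟨h0, h1, h2, h3, h4⟩ := hp i j hij
    refine ⟨congrArg φ h0, congrArg φ h1, fun t ht => hA _ _ (h2 t ht),
      fun s t hs ht h => h3 s t hs ht (hφ h), fun t m h0 h1 h => h4 t m h0 h1 (hφ h)⟩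
  · intro i j i' j' h1 h2 h3 s t hs hs' ht ht' h
    exact hd i j i' j' h1 h2 h3 s t hs hs' ht ht' (hφ h)

end Pool.MRW
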